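import Pool.Agent.Lib.TwoAd.Abs

/-!
# Relations between `m` odd numbers modulo a high power of `2`
-/

open Finset

namespace Pool.Agent.TwoAd

theorem dvd_prod_sub_prod {ι : Type*} (s : Finset ι) (a b : ι → ℤ) (q : ℤ)
    (h : ∀ i ∈ s, q ∣ a i - b i) : q ∣ ∏ i ∈ s, a i - ∏ i ∈ s, b i := by
  classical
  induction s using Finset.induction_on with
  | empty => simp
  | insert i s hi ih =>
    rw [Finset.prod_insert hi, Finset.prod_insert hi]
    have h1 := ih fun j hj => h j (Finset.mem_insert_of_mem hj)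
    have h2 := h i (Finset.mem_insert_self i s)
    have h3 : a i * ∏ j ∈ s, a j - b i * ∏ j ∈ s, b j =
        a i * (∏ j ∈ s, a j - ∏ j ∈ s, b j) + (a i - b i) * ∏ j ∈ s, b j := by ring
    rw [h3]
    exact dvd_add (h1.mul_left _) (h2.mul_right _)

/-- the numbers -/
def RG {ι : Type} [Fintype ι] (g : ι → ℕ) {T : ℕ} (t : ι → Fin T) : ℕ := ∏ i, g i ^ (2 * (t i : ℕ))

/-- the exponents of `5` -/
def XG {ι : Type} [Fintype ι] (L : ι → ℕ) {T : ℕ} (t : ι → Fin T) : ℕ := ∑ i, (t i : ℕ) * L i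

theorem RG_mod {ι : Type} [Fintype ι] {g L : ι → ℕ} {k T : ℕ}
    (hL : ∀ i, (2 : ℤ) ^ k ∣ (g i : ℤ) ^ 2 - 5 ^ L i) (t : ι → Fin T) :
    (2 : ℤ) ^ k ∣ (RG g t : ℤ) - 5 ^ XG L t := by
  have h := dvd_prod_sub_prod Finset.univ (fun i => ((g i : ℤ) ^ 2) ^ (t i : ℕ))
    (fun i => ((5 : ℤ) ^ L i) ^ (t i : ℕ)) ((2 : ℤ) ^ k)
    (fun i _ => (hL i).trans (sub_dvd_pow_sub_pow _ _ _))
  have e1 : (RG g t : ℤ) = ∏ i, ((g i : ℤ) ^ 2) ^ (t i : ℕ) := by
    unfold RG
    push_cast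
    refine Finset.prod_congr rfl fun i _ => ?_
    rw [pow_mul]
  have e2 : (5 : ℤ) ^ XG L t = ∏ i, ((5 : ℤ) ^ L i) ^ (t i : ℕ) := by
    unfold XG
    rw [← Finset.prod_pow_eq_pow_sum]
    refine Finset.prod_congr rfl fun i _ => ?_
    rw [mul_comm, pow_mul]
  rw [e1, e2]
  exact h

theorem RG_le {ι : Type} [Fintype ι] {g : ι → ℕ} {l T : ℕ} (hg : ∀ i, g i ≤ 2 ^ l)
    (t : ι → Fin T) : RG g t ≤ 2 ^ (2 * l * T * Fintype.card ι) := by
  unfold RG
  calc ∏ i, g i ^ (2 * (t i : ℕ)) ≤ ∏ _i : ι, 2 ^ (2 * l * T) := by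
        refine Finset.prod_le_prod' fun i _ => ?_
        calc g i ^ (2 * (t i : ℕ)) ≤ (2 ^ l) ^ (2 * (t i : ℕ)) := Nat.pow_le_pow_left (hg i) _
          _ ≤ (2 ^ l) ^ (2 * T) :=
              Nat.pow_le_pow_right (Nat.pow_pos (by norm_num)) (by have := (t i).2; omega)
          _ = 2 ^ (2 * l * T) := by
              rw [← pow_mul]
              congr 1
              ring
    _ = 2 ^ (2 * l * T * Fintype.card ι) := by
        rw [Finset.prod_const, Finset.card_univ, ← pow_mul]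

theorem RG_pos {ι : Type} [Fintype ι] {g : ι → ℕ} {T : ℕ} (hg : ∀ i, 1 ≤ g i)
    (t : ι → Fin T) : 0 < RG g t :=
  Finset.prod_pos fun i _ => Nat.pow_pos (hg i)

theorem log_RG {ι : Type} [Fintype ι] {g : ι → ℕ} {T : ℕ} (hg : ∀ i, 1 ≤ g i)
    (t : ι → Fin T) : Real.log (RG g t) = 2 * ∑ i, (t i : ℝ) * Real.log (g i) := by
  unfold RG
  push_cast
  rw [Real.log_prod (fun i _ => by
    have : (0 : ℝ) < g i := by exact_mod_cast hg i
    positivity), Finset.mul_sum]
  refine Finset.sum_congr rfl fun i _ => ?_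
  rw [Real.log_pow]
  push_cast
  ring

/-- exponential beats polynomial -/
theorem exists_c (C m : ℕ) : ∃ c : ℕ, 2 * m + 1 ≤ c ∧ 1 ≤ c ∧ C * c ^ (m + 1) ≤ 4 ^ (c - (2 * m + 1)) := by
  have h := tendsto_pow_const_div_const_pow_of_one_lt (m + 1) (by norm_num : (1 : ℝ) < 4)
  have h1 : (0 : ℝ) < 1 / ((C + 1) * 4 ^ (2 * m + 1)) := by positivity
  have h2 := (h.eventually (gt_mem_nhds h1)).and (Filter.eventually_ge_atTop (2 * m + 1))
  obtain ⟨c, hc, hc2⟩ := h2.exists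
  refine ⟨c, hc2, by omega, ?_⟩
  rw [div_lt_div_iff₀ (by positivity) (by positivity), one_mul] at hc
  have e1 : (4 : ℝ) ^ c = 4 ^ (c - (2 * m + 1)) * 4 ^ (2 * m + 1) := by
    rw [← pow_add, Nat.sub_add_cancel hc2]
  rw [e1, ← mul_assoc] at hc
  have h3 := lt_of_mul_lt_mul_right hc (by positivity)
  have h4 : (C : ℝ) * (c : ℝ) ^ (m + 1) ≤ 4 ^ (c - (2 * m + 1)) := by
    have : (0 : ℝ) ≤ (c : ℝ) ^ (m + 1) := by positivity
    nlinarith
  exact_mod_cast h4

/-- numerical choice of the parameters -/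
theorem exists_tau (m : ℕ) (hm : 1 ≤ m) : ∃ c : ℕ, ∀ W : ℕ, 2 ≤ W → ∃ τ : ℕ, 1 ≤ τ ∧
    10 * m ^ 2 * (7 * m ^ 2) ^ m * τ ^ (m + 1) * W ^ m ≤ 2 ^ τ ∧ 2 ^ τ ≤ W ^ c := by
  obtain ⟨c, hc1, hc2, hc⟩ := exists_c (10 * m ^ 2 * (7 * m ^ 2) ^ m) m
  refine ⟨2 * c, fun W hW => ⟨c * (Nat.log 2 W + 1), ?_, ?_, ?_⟩⟩
  · exact Nat.mul_pos hc2 (Nat.succ_pos _)
  · set x := 2 ^ (Nat.log 2 W + 1) with hx
    have hWx : W ≤ x := (Nat.lt_pow_succ_log_self (by norm_num) W).le
    have hx4 : 4 ≤ x := by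
      have h1 : 1 ≤ Nat.log 2 W := Nat.log_pos (by norm_num) hW
      calc 4 = 2 ^ 2 := by norm_num
        _ ≤ 2 ^ (Nat.log 2 W + 1) := Nat.pow_le_pow_right (by norm_num) (by omega)
    have hlx : Nat.log 2 W + 1 ≤ x := Nat.lt_two_pow_self.le
    have e1 : 2 ^ (c * (Nat.log 2 W + 1)) = x ^ c := by
      rw [hx, ← pow_mul, mul_comm]
    rw [e1]
    calc 10 * m ^ 2 * (7 * m ^ 2) ^ m * (c * (Nat.log 2 W + 1)) ^ (m + 1) * W ^ m
        ≤ 10 * m ^ 2 * (7 * m ^ 2) ^ m * (c * x) ^ (m + 1) * x ^ m := by gcongr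
      _ = (10 * m ^ 2 * (7 * m ^ 2) ^ m * c ^ (m + 1)) * x ^ (2 * m + 1) := by
          rw [mul_pow]
          have : x ^ (2 * m + 1) = x ^ (m + 1) * x ^ m := by
            rw [← pow_add]
            congr 1
            ring
          rw [this]
          ring
      _ ≤ 4 ^ (c - (2 * m + 1)) * x ^ (2 * m + 1) := Nat.mul_le_mul_right _ hc
      _ ≤ x ^ (c - (2 * m + 1)) * x ^ (2 * m + 1) :=
          Nat.mul_le_mul_right _ (Nat.pow_le_pow_left hx4 _)
      _ = x ^ c := by rw [← pow_add, Nat.sub_add_cancel hc1]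
  · have h1 : 2 ^ Nat.log 2 W ≤ W := Nat.pow_log_le_self 2 (by omega)
    calc 2 ^ (c * (Nat.log 2 W + 1)) = (2 ^ Nat.log 2 W * 2) ^ c := by
          rw [← pow_succ, ← pow_mul, mul_comm]
      _ ≤ (W * W) ^ c := Nat.pow_le_pow_left (Nat.mul_le_mul h1 hW) _
      _ = W ^ (2 * c) := by
          rw [← sq, ← pow_mul]

/-- the contradiction if the points are distinct -/
theorem inj_false {ι : Type} [Fintype ι] [DecidableEq ι] {m l h k τ : ℕ} {g L : ι → ℕ} {e : ι → ℤ}
    (hm : Fintype.card ι = m) (hm1 : 1 ≤ m) (hl : 1 ≤ l) (hτ : 1 ≤ τ)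
    (hgl : ∀ i, g i ≤ 2 ^ l)
    (hL : ∀ i, (2 : ℤ) ^ k ∣ (g i : ℤ) ^ 2 - 5 ^ L i) (he : ∀ i, |e i| < 2 ^ h)
    (hsum : (2 : ℤ) ^ (k - 2) ∣ ∑ i, e i * L i) {i0 : ι} (hi0 : e i0 ≠ 0)
    (hpar : 10 * m ^ 2 * (7 * m ^ 2) ^ m * τ ^ (m + 1) * (l + h + 2) ^ m ≤ 2 ^ τ)
    (hinj : Function.Injective (RG g : (ι → Fin (2 ^ τ)) → ℕ))
    (hk : (2 ^ τ) ^ (3 * m + 15) ≤ k) : False := by
  classical
  set T := 2 ^ τ with hT
  set W := l + h + 2 with hW
  have hTpos : 1 ≤ T := Nat.pow_pos (by norm_num)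
  have hcardJ : Fintype.card {i : ι // i ≠ i0} = m - 1 := by
    rw [Fintype.card_subtype_compl, Fintype.card_subtype_eq, hm]
  have hcardI : Fintype.card (ι → Fin T) = T ^ m := by
    rw [Fintype.card_fun, Fintype.card_fin, hm]
  set s := m * τ with hs
  set d := 6 * l * T * m with hd
  set B0 := 2 * m * τ + 2 * (m - 1) * s * (h + 1 + τ) + 1 with hB0
  -- basic inequalities from `hpar`
  have hW1 : 1 ≤ W := by omega
  have hWm : W ≤ W ^ m := Nat.le_self_pow (by omega) W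
  have hm2 : 1 ≤ m ^ 2 := Nat.pow_pos hm1
  have h7 : 1 ≤ (7 * m ^ 2) ^ m := Nat.pow_pos (by omega)
  have h7m : 7 * m ^ 2 ≤ (7 * m ^ 2) ^ m := Nat.le_self_pow (by omega) _
  have hτm : τ ≤ τ ^ (m + 1) := Nat.le_self_pow (by omega) τ
  have b1 : 70 * m ^ 2 * τ * W ≤ T := by
    calc 70 * m ^ 2 * τ * W = 10 * 1 * (7 * m ^ 2) * τ * W := by ring
      _ ≤ 10 * m ^ 2 * (7 * m ^ 2) ^ m * τ ^ (m + 1) * W ^ m := by gcongr
      _ ≤ T := hpar
  have hd1 : d + 1 ≤ T ^ 2 := by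
    have e1 : 6 * l * m + 1 ≤ T := by
      have e2 : 6 * l * m + 1 ≤ 70 * m ^ 2 * τ * W := by
        have e3 : l * m ≤ m ^ 2 * τ * W := by
          calc l * m ≤ W * m ^ 2 := Nat.mul_le_mul (by omega) (Nat.le_self_pow (by norm_num) m)
            _ ≤ W * m ^ 2 * τ := Nat.le_mul_of_pos_right _ hτ
            _ = m ^ 2 * τ * W := by ring
        have e4 : 1 ≤ m ^ 2 * τ * W := Nat.mul_pos (Nat.mul_pos hm2 hτ) hW1
        nlinarith
      omega
    calc d + 1 ≤ d + T := by omega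
      _ = (6 * l * m + 1) * T := by rw [hd]; ring
      _ ≤ T * T := Nat.mul_le_mul_right _ e1
      _ = T ^ 2 := by ring
  have hB0le : B0 ≤ 5 * m ^ 2 * τ ^ 2 * W := by
    have e1 : h + 1 + τ ≤ τ * W := by
      have : h + 2 ≤ W := by omega
      nlinarith
    have e2 : (m - 1) * s ≤ m ^ 2 * τ := by
      rw [hs]
      calc (m - 1) * (m * τ) ≤ m * (m * τ) := Nat.mul_le_mul_right _ (by omega)
        _ = m ^ 2 * τ := by ring
    have e3 : (m - 1) * s * (h + 1 + τ) ≤ m ^ 2 * τ ^ 2 * W := by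
      calc (m - 1) * s * (h + 1 + τ) ≤ (m ^ 2 * τ) * (τ * W) := Nat.mul_le_mul e2 e1
        _ = m ^ 2 * τ ^ 2 * W := by ring
    have e4 : m * τ ≤ m ^ 2 * τ ^ 2 * W := by
      calc m * τ ≤ m ^ 2 * τ ^ 2 :=
            Nat.mul_le_mul (Nat.le_self_pow (by norm_num) m) (Nat.le_self_pow (by norm_num) τ)
        _ ≤ m ^ 2 * τ ^ 2 * W := Nat.le_mul_of_pos_right _ hW1
    have e5 : 1 ≤ m ^ 2 * τ ^ 2 * W := Nat.mul_pos (Nat.mul_pos hm2 (Nat.pow_pos hτ)) hW1
    have e6 : 2 * (m - 1) * s * (h + 1 + τ) = 2 * ((m - 1) * s * (h + 1 + τ)) := by ring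
    rw [hB0, e6]
    nlinarith
  have hB0T : B0 ≤ T := by
    refine hB0le.trans ?_
    refine le_trans ?_ hpar
    have e1 : τ ^ 2 ≤ τ ^ (m + 1) := Nat.pow_le_pow_right hτ (by omega)
    calc 5 * m ^ 2 * τ ^ 2 * W ≤ 10 * m ^ 2 * τ ^ 2 * W := by gcongr; norm_num
      _ = 10 * m ^ 2 * 1 * τ ^ 2 * W := by ring
      _ ≤ 10 * m ^ 2 * (7 * m ^ 2) ^ m * τ ^ (m + 1) * W ^ m := by gcongr
  have hT4 : 4 ≤ T := by
    have e4 : 1 ≤ m ^ 2 * τ * W := Nat.mul_pos (Nat.mul_pos hm2 hτ) hW1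
    nlinarith
  have h2s : 2 ^ s = T ^ m := by
    rw [hs, hT, ← pow_mul, mul_comm]
  refine core_abs (I := ι → Fin T) (J := {i : ι // i ≠ i0}) (RG g) (XG L)
    (fun j t => e i0 * (t j : ℕ) - e j * (t i0 : ℕ)) (fun j => (L j : ℤ)) (e i0) k s d B0 h
    (2 ^ (2 * l * T * m)) (2 ^ (h + 1 + τ)) hinj (RG_mod hL) ?_ hi0 (he i0)
    (Nat.pow_pos (by norm_num)) ?_ (Nat.pow_pos (by norm_num)) ?_ (by omega) ?_ ?_ ?_ ?_ ?_
  · -- the relation
    intro t
    have e1 : e i0 * (XG L t : ℕ) - ∑ j : {i : ι // i ≠ i0},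
        (L j : ℤ) * (e i0 * (t j : ℕ) - e j * (t i0 : ℕ)) = (t i0 : ℕ) * ∑ i, e i * L i := by
      have e2 : ∑ j : {i : ι // i ≠ i0}, (L j : ℤ) * (e i0 * (t j : ℕ) - e j * (t i0 : ℕ)) =
          ∑ j : ι, (L j : ℤ) * (e i0 * (t j : ℕ) - e j * (t i0 : ℕ)) := by
        have e3 := Finset.sum_subtype_eq_sum_filter (s := (Finset.univ : Finset ι))
          (p := fun i => i ≠ i0) (f := fun j => (L j : ℤ) * (e i0 * (t j : ℕ) - e j * (t i0 : ℕ)))
        have e4 : ∑ j : {i : ι // i ≠ i0}, (L j : ℤ) * (e i0 * (t j : ℕ) - e j * (t i0 : ℕ)) =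
            ∑ j ∈ Finset.univ.filter (fun i => i ≠ i0),
              (L j : ℤ) * (e i0 * (t j : ℕ) - e j * (t i0 : ℕ)) := by
          rw [← e3, Finset.subtype_univ]
        rw [e4]
        refine Finset.sum_subset (Finset.filter_subset _ _) ?_
        intro j _ hj
        have hj' : j = i0 := by
          by_contra hc
          exact hj (Finset.mem_filter.2 ⟨Finset.mem_univ j, hc⟩)
        rw [hj']
        ring
      rw [e2]
      unfold XG
      push_cast
      rw [Finset.mul_sum, Finset.mul_sum, ← Finset.sum_sub_distrib]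
      refine Finset.sum_congr rfl fun i _ => ?_
      ring
    rw [e1]
    exact hsum.mul_left _
  · intro t
    have := RG_le hgl t
    rw [hm] at this
    exact this
  · -- size of the coordinates
    intro j t
    have e1 : (t j : ℕ) ≤ T := (t j).2.le
    have e2 : (t i0 : ℕ) ≤ T := (t i0).2.le
    have e3 : ((t (j : ι) : ℕ) : ℤ) ≤ T := by exact_mod_cast e1
    have e4 : ((t i0 : ℕ) : ℤ) ≤ T := by exact_mod_cast e2
    have e5 := (he i0).le
    have e6 := (he j).le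
    calc |e i0 * ((t j : ℕ) : ℤ) - e j * ((t i0 : ℕ) : ℤ)|
        ≤ |e i0 * ((t j : ℕ) : ℤ)| + |e j * ((t i0 : ℕ) : ℤ)| := abs_sub _ _
      _ = |e i0| * ((t j : ℕ) : ℤ) + |e j| * ((t i0 : ℕ) : ℤ) := by
          rw [abs_mul, abs_mul, abs_of_nonneg (by positivity : (0 : ℤ) ≤ ((t (j : ι) : ℕ) : ℤ)),
            abs_of_nonneg (by positivity : (0 : ℤ) ≤ ((t i0 : ℕ) : ℤ))]
      _ ≤ 2 ^ h * T + 2 ^ h * T := by gcongr
      _ = ((2 ^ (h + 1 + τ) : ℕ) : ℤ) := by
          rw [hT]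
          push_cast
          rw [pow_add, pow_add]
          ring
  · -- number of equations
    rw [hcardJ, hcardI]
    have e1 : s * d + 1 ≤ 7 * m ^ 2 * τ * l * T := by
      have e2 : s * d = 6 * (m ^ 2 * τ * l * T) := by rw [hs, hd]; ring
      have e3 : 1 ≤ m ^ 2 * τ * l * T :=
        Nat.mul_pos (Nat.mul_pos (Nat.mul_pos hm2 hτ) hl) hTpos
      rw [e2]
      nlinarith
    have e4 : 2 * (7 * m ^ 2 * τ * l) ^ (m - 1) * B0 ≤ T := by
      calc 2 * (7 * m ^ 2 * τ * l) ^ (m - 1) * B0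
          ≤ 2 * (7 * m ^ 2 * τ * W) ^ (m - 1) * (5 * m ^ 2 * τ ^ 2 * W) := by
            gcongr
            omega
        _ = 10 * m ^ 2 * (7 * m ^ 2) ^ (m - 1) * (τ ^ (m - 1) * τ ^ 2) * (W ^ (m - 1) * W) := by
            rw [mul_pow, mul_pow]
            ring
        _ = 10 * m ^ 2 * (7 * m ^ 2) ^ (m - 1) * τ ^ (m + 1) * W ^ m := by
            rw [← pow_add, ← pow_succ]
            have e5 : m - 1 + 2 = m + 1 := by omega
            have e6 : m - 1 + 1 = m := by omega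
            rw [e5, e6]
        _ ≤ 10 * m ^ 2 * (7 * m ^ 2) ^ m * τ ^ (m + 1) * W ^ m := by
            gcongr
            · omega
            · omega
        _ ≤ T := hpar
    calc 2 * ((s * d + 1) ^ (m - 1) * B0) ≤ 2 * ((7 * m ^ 2 * τ * l * T) ^ (m - 1) * B0) := by
          gcongr
      _ = (2 * (7 * m ^ 2 * τ * l) ^ (m - 1) * B0) * T ^ (m - 1) := by
          rw [mul_pow (7 * m ^ 2 * τ * l) T]
          ring
      _ ≤ T * T ^ (m - 1) := Nat.mul_le_mul_right _ e4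
      _ = T ^ m := by
          rw [← pow_succ']
          congr 1
          omega
  · rw [hcardI, h2s]
    exact Nat.le_mul_of_pos_right _ (by omega)
  · rw [← pow_mul]
    refine Nat.pow_le_pow_right (by norm_num) ?_
    have : 2 * l * T * m * 3 = d := by rw [hd]; ring
    omega
  · rw [hcardI, hcardJ]
    have e1 : (T ^ m) ^ 2 = 2 ^ (2 * m * τ) := by
      rw [hT, ← pow_mul, ← pow_mul]
      congr 1
      ring
    rw [e1, ← pow_mul, ← pow_add]
    refine Nat.pow_lt_pow_right (by norm_num) ?_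
    have e2 : B0 * (d + 1) = (2 * m * τ + 2 * (m - 1) * s * (h + 1 + τ) + 1) +
        (2 * m * τ) * d + (h + 1 + τ) * (2 * ((m - 1) * (s * d))) + d := by
      rw [hB0]
      ring
    rw [e2]
    have e3 : 0 ≤ 2 * (m - 1) * s * (h + 1 + τ) := Nat.zero_le _
    have e4 : 0 ≤ (2 * m * τ) * d := Nat.zero_le _
    omega
  · -- size of `k`
    refine le_trans ?_ hk
    rw [h2s]
    have hh : h ≤ T := by
      have : h ≤ 70 * m ^ 2 * τ * W := by
        have e4 : 1 ≤ 70 * m ^ 2 * τ := by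
          have := Nat.mul_pos hm2 hτ
          nlinarith
        calc h ≤ W := by omega
          _ ≤ 70 * m ^ 2 * τ * W := Nat.le_mul_of_pos_left _ e4
      omega
    have hdT : d ≤ T ^ 2 := by omega
    have c1 : d * h ≤ T ^ 3 := by
      calc d * h ≤ T ^ 2 * T := Nat.mul_le_mul hdT hh
        _ = T ^ 3 := by ring
    have c2 : T ^ m * B0 * (d + 1) ≤ T ^ (m + 3) := by
      calc T ^ m * B0 * (d + 1) ≤ T ^ m * T * T ^ 2 := by gcongr
        _ = T ^ (m + 3) := by rw [pow_add]; ring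
    have c3 : T ^ m * B0 * (d + 1) * (d + 1) ≤ T ^ (m + 5) := by
      calc T ^ m * B0 * (d + 1) * (d + 1) ≤ T ^ (m + 3) * T ^ 2 := Nat.mul_le_mul c2 hd1
        _ = T ^ (m + 5) := by rw [← pow_add]
    have c4 : T ^ m * B0 ≤ T ^ (m + 5) := by
      calc T ^ m * B0 ≤ T ^ m * T := Nat.mul_le_mul_left _ hB0T
        _ = T ^ (m + 1) := by rw [← pow_succ]
        _ ≤ T ^ (m + 5) := Nat.pow_le_pow_right hTpos (by omega)
    have c5 : 2 + T ^ m * B0 * (d + 1) * (d + 1) + 3 * (T ^ m * B0) ≤ T ^ (m + 7) := by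
      have e1 : T ^ (m + 7) = T ^ (m + 5) * (T * T) := by
        rw [show m + 7 = m + 5 + 2 by ring, pow_add]
        ring
      have e2 : 16 ≤ T * T := Nat.mul_le_mul hT4 hT4
      have e3 : 1 ≤ T ^ (m + 5) := Nat.pow_pos hTpos
      rw [e1]
      nlinarith
    have c6 : (T ^ m * B0 * (d + 1)) ^ 2 * (2 + T ^ m * B0 * (d + 1) * (d + 1) + 3 * (T ^ m * B0)) ≤
        T ^ (3 * m + 13) := by
      calc _ ≤ (T ^ (m + 3)) ^ 2 * T ^ (m + 7) := Nat.mul_le_mul (Nat.pow_le_pow_left c2 2) c5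
        _ = T ^ (3 * m + 13) := by
            rw [← pow_mul, ← pow_add]
            congr 1
            ring
    have c7 : T ^ 3 ≤ T ^ (3 * m + 13) := Nat.pow_le_pow_right hTpos (by omega)
    have c8 : T ^ (m + 3) ≤ T ^ (3 * m + 13) := Nat.pow_le_pow_right hTpos (by omega)
    have c9 : 1 ≤ T ^ (3 * m + 13) := Nat.pow_pos hTpos
    have c10 : T ^ (3 * m + 15) = T ^ (3 * m + 13) * (T * T) := by
      rw [show 3 * m + 15 = 3 * m + 13 + 2 by ring, pow_add]
      ring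
    have c11 : 16 ≤ T * T := Nat.mul_le_mul hT4 hT4
    rw [c10]
    nlinarith

/-- **A relation between `m` odd numbers modulo `2 ^ k`**: `k` is bounded by a power of the
logarithms of the numbers and of the exponents. -/
theorem gens_bound (m : ℕ) : ∃ N : ℕ, ∀ (ι : Type) [Fintype ι] [DecidableEq ι], Fintype.card ι = m →
    ∀ (l h k : ℕ) (g L : ι → ℕ) (e : ι → ℤ), 1 ≤ l → (∀ i, 1 ≤ g i) → (∀ i, g i ≤ 2 ^ l) →
    (∀ i, (2 : ℤ) ^ k ∣ (g i : ℤ) ^ 2 - 5 ^ L i) → (∀ i, |e i| < 2 ^ h) →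
    (2 : ℤ) ^ (k - 2) ∣ ∑ i, e i * L i → ∑ i, (e i : ℝ) * Real.log (g i) ≠ 0 →
    k < (l + h + 2) ^ N := by
  classical
  induction m with
  | zero =>
    refine ⟨0, ?_⟩
    intro ι _ _ hι l h k g L e _ _ _ _ _ _ h0
    exfalso
    apply h0
    have : IsEmpty ι := Fintype.card_eq_zero_iff.1 hι
    simp
  | succ m ih =>
    obtain ⟨N', hN'⟩ := ih
    obtain ⟨c, hc⟩ := exists_tau (m + 1) (by omega)
    refine ⟨max (c * (3 * (m + 1) + 15)) ((c + 2) * N'), ?_⟩
    intro ι _ _ hι l h k g L e hl hg1 hgl hL he hsum h0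
    obtain ⟨τ, hτ1, hτ2, hτ3⟩ := hc (l + h + 2) (by omega)
    set W := l + h + 2 with hW
    by_contra hcon
    push Not at hcon
    have hi : ∃ i0, e i0 ≠ 0 := by
      by_contra hno
      push Not at hno
      apply h0
      refine Finset.sum_eq_zero fun i _ => ?_
      rw [hno i]
      simp
    obtain ⟨i1, hi1⟩ := hi
    have hW1 : 1 ≤ W := by omega
    have hW2 : 2 ≤ W := by omega
    by_cases hinj : Function.Injective (RG g : (ι → Fin (2 ^ τ)) → ℕ)
    · refine inj_false hι (by omega) hl hτ1 hgl hL he hsum hi1 hτ2 hinj ?_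
      refine le_trans ?_ hcon
      calc (2 ^ τ) ^ (3 * (m + 1) + 15) ≤ (W ^ c) ^ (3 * (m + 1) + 15) := Nat.pow_le_pow_left hτ3 _
        _ = W ^ (c * (3 * (m + 1) + 15)) := by rw [← pow_mul]
        _ ≤ _ := Nat.pow_le_pow_right hW1 (le_max_left _ _)
    · -- eliminate one generator
      simp only [Function.Injective, not_forall] at hinj
      obtain ⟨t, t', hRt, htt⟩ := hinj
      obtain ⟨i0, hi0⟩ : ∃ i0, t i0 ≠ t' i0 := by
        by_contra hno
        push Not at hno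
        exact htt (funext hno)
      set δ : ι → ℤ := fun i => ((t i : ℕ) : ℤ) - ((t' i : ℕ) : ℤ) with hδ
      have hδ0 : δ i0 ≠ 0 := by
        intro h1
        apply hi0
        apply Fin.ext
        have : ((t i0 : ℕ) : ℤ) = ((t' i0 : ℕ) : ℤ) := by
          have h2 : ((t i0 : ℕ) : ℤ) - ((t' i0 : ℕ) : ℤ) = 0 := h1
          omega
        exact_mod_cast this
      have hδle : ∀ i, |δ i| ≤ 2 ^ τ := by
        intro i
        have h1 := (t i).2
        have h2 := (t' i).2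
        have h3 : ((t i : ℕ) : ℤ) < 2 ^ τ := by exact_mod_cast h1
        have h4 : ((t' i : ℕ) : ℤ) < 2 ^ τ := by exact_mod_cast h2
        have h5 : δ i = ((t i : ℕ) : ℤ) - ((t' i : ℕ) : ℤ) := rfl
        rw [h5, abs_le]
        constructor <;> omega
      have hδL : (2 : ℤ) ^ (k - 2) ∣ ∑ i, δ i * L i := by
        have h1 := RG_mod hL t
        have h2 := RG_mod hL t'
        have h3 : (2 : ℤ) ^ k ∣ 5 ^ XG L t - 5 ^ XG L t' := by
          have h4 := dvd_sub h2 h1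
          rw [hRt] at h4
          have h5 : ((RG g t' : ℕ) : ℤ) - 5 ^ XG L t' - (((RG g t' : ℕ) : ℤ) - 5 ^ XG L t) =
              5 ^ XG L t - 5 ^ XG L t' := by ring
          rwa [h5] at h4
        have h4 := log_inj k _ _ h3
        have h5 : ((XG L t : ℕ) : ℤ) - (XG L t' : ℕ) = ∑ i, δ i * L i := by
          unfold XG
          push_cast
          rw [← Finset.sum_sub_distrib]
          refine Finset.sum_congr rfl fun i _ => ?_
          rw [hδ]
          ring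
        rwa [h5] at h4
      have hδlog : ∑ i, (δ i : ℝ) * Real.log (g i) = 0 := by
        have h1 := log_RG hg1 t
        have h2 := log_RG hg1 t'
        rw [hRt, h2] at h1
        have h3 : ∑ i, (δ i : ℝ) * Real.log (g i) =
            ∑ i, ((t i : ℕ) : ℝ) * Real.log (g i) - ∑ i, ((t' i : ℕ) : ℝ) * Real.log (g i) := by
          rw [← Finset.sum_sub_distrib]
          refine Finset.sum_congr rfl fun i _ => ?_
          rw [hδ]
          push_cast
          ring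
        rw [h3]
        linarith
      -- the new relation
      set e' : ι → ℤ := fun i => e i * δ i0 - e i0 * δ i with he'
      have he'0 : e' i0 = 0 := by
        rw [he']
        ring
      have hsub : ∀ {M : Type} [AddCommMonoid M] (f : ι → M), f i0 = 0 →
          ∑ j : {i : ι // i ≠ i0}, f j = ∑ i, f i := by
        intro M _ f hf
        have e3 := Finset.sum_subtype_eq_sum_filter (s := (Finset.univ : Finset ι))
          (p := fun i => i ≠ i0) (f := f)
        have e4 : ∑ j : {i : ι // i ≠ i0}, f j = ∑ j ∈ Finset.univ.filter (fun i => i ≠ i0), f j := by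
          rw [← e3, Finset.subtype_univ]
        rw [e4]
        refine Finset.sum_subset (Finset.filter_subset _ _) ?_
        intro j _ hj
        have hj' : j = i0 := by
          by_contra hc'
          exact hj (Finset.mem_filter.2 ⟨Finset.mem_univ j, hc'⟩)
        rw [hj']
        exact hf
      have hres := hN' {i : ι // i ≠ i0} (by
          rw [Fintype.card_subtype_compl, Fintype.card_subtype_eq, hι]
          omega) l (h + 1 + τ) k (fun j => g j) (fun j => L j) (fun j => e' j) hl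
        (fun j => hg1 j) (fun j => hgl j) (fun j => hL j) ?_ ?_ ?_
      · -- conclusion
        have h1 : l + (h + 1 + τ) + 2 ≤ W ^ (c + 2) := by
          have h2 : τ + 1 ≤ 2 ^ τ := Nat.lt_two_pow_self
          have h3 : W ≤ W ^ (c + 1) := Nat.le_self_pow (by omega) W
          have h4 : W ^ c ≤ W ^ (c + 1) := Nat.pow_le_pow_right hW1 (by omega)
          have h5 : W ^ (c + 2) = W ^ (c + 1) * W := by rw [← pow_succ]
          have h6 : W ^ (c + 1) * 2 ≤ W ^ (c + 1) * W := Nat.mul_le_mul_left _ hW2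
          omega
        have h2 : k < W ^ ((c + 2) * N') := by
          refine lt_of_lt_of_le hres ?_
          rw [pow_mul]
          exact Nat.pow_le_pow_left h1 N'
        have h3 : W ^ ((c + 2) * N') ≤ W ^ max (c * (3 * (m + 1) + 15)) ((c + 2) * N') :=
          Nat.pow_le_pow_right hW1 (le_max_right _ _)
        omega
      · intro j
        show |e j * δ i0 - e i0 * δ j| < _
        have a1 := he j
        have a2 := he i0
        have a3 := hδle i0
        have a4 := hδle j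
        have a5 : |e (j : ι) * δ i0| < 2 ^ h * 2 ^ τ := by
          rw [abs_mul]
          have a6 : (0 : ℤ) < 2 ^ τ := by positivity
          calc |e (j : ι)| * |δ i0| ≤ |e (j : ι)| * 2 ^ τ :=
                mul_le_mul_of_nonneg_left a3 (abs_nonneg _)
            _ < 2 ^ h * 2 ^ τ := mul_lt_mul_of_pos_right a1 a6
        have a7 : |e i0 * δ j| ≤ 2 ^ h * 2 ^ τ := by
          rw [abs_mul]
          exact mul_le_mul a2.le a4 (abs_nonneg _) (by positivity)
        calc |e (j : ι) * δ i0 - e i0 * δ j| ≤ |e (j : ι) * δ i0| + |e i0 * δ j| := abs_sub _ _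
          _ < 2 ^ h * 2 ^ τ + 2 ^ h * 2 ^ τ := by omega
          _ = 2 ^ (h + 1 + τ) := by
              rw [pow_add, pow_add]
              ring
      · have a1 : ∑ j : {i : ι // i ≠ i0}, e' j * (L j : ℤ) = ∑ i, e' i * (L i : ℤ) :=
          hsub (fun i => e' i * (L i : ℤ)) (by rw [he'0]; ring)
        have a2 : ∑ i, e' i * (L i : ℤ) = δ i0 * ∑ i, e i * L i - e i0 * ∑ i, δ i * L i := by
          rw [Finset.mul_sum, Finset.mul_sum, ← Finset.sum_sub_distrib]
          refine Finset.sum_congr rfl fun i _ => ?_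
          rw [he']
          ring
        show (2 : ℤ) ^ (k - 2) ∣ ∑ j : {i : ι // i ≠ i0}, e' j * (L j : ℤ)
        rw [a1, a2]
        exact dvd_sub (hsum.mul_left _) (hδL.mul_left _)
      · have a1 : ∑ j : {i : ι // i ≠ i0}, (e' j : ℝ) * Real.log (g j) =
            ∑ i, (e' i : ℝ) * Real.log (g i) :=
          hsub (fun i => (e' i : ℝ) * Real.log (g i)) (by rw [he'0]; simp)
        have a2 : ∑ i, (e' i : ℝ) * Real.log (g i) =
            δ i0 * ∑ i, (e i : ℝ) * Real.log (g i) - e i0 * ∑ i, (δ i : ℝ) * Real.log (g i) := by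
          rw [Finset.mul_sum, Finset.mul_sum, ← Finset.sum_sub_distrib]
          refine Finset.sum_congr rfl fun i _ => ?_
          rw [he']
          push_cast
          ring
        show ∑ j : {i : ι // i ≠ i0}, (e' j : ℝ) * Real.log (g j) ≠ 0
        rw [a1, a2, hδlog, mul_zero, sub_zero]
        exact mul_ne_zero (by exact_mod_cast hδ0) h0

end Pool.Agent.TwoAd
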