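import Mathlib

/-!
# Siegel's lemma and Vandermonde
-/

open Finset

namespace Pool.Agent.TwoAd

attribute [local instance] Matrix.seminormedAddCommGroup

/-- Siegel's lemma, in the form needed here. -/
theorem siegel {α β : Type*} [Fintype α] [Fintype β] (A : α → β → ℤ)
    (h : 2 * Fintype.card α ≤ Fintype.card β) (hα : 0 < Fintype.card α) (M : ℕ) (hM : 1 ≤ M)
    (hA : ∀ i j, |A i j| ≤ M) :
    ∃ c : β → ℤ, c ≠ 0 ∧ (∀ i, ∑ j, A i j * c j = 0) ∧
      ∀ j, |c j| ≤ (Fintype.card β : ℤ) * M := by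
  classical
  have hlt : Fintype.card α < Fintype.card β := by omega
  obtain ⟨t, ht0, ht, htn⟩ := Int.Matrix.exists_ne_zero_int_vec_norm_le (Matrix.of A) hlt hα
  refine ⟨t, ht0, ?_, ?_⟩
  · intro i
    have := congrFun ht i
    simpa [Matrix.mulVec, dotProduct] using this
  · intro j
    set n : ℝ := (Fintype.card β : ℝ) with hn
    set m : ℝ := (Fintype.card α : ℝ) with hm
    have hm1 : (1 : ℝ) ≤ m := by
      rw [hm]
      exact_mod_cast hα
    have h2m : 2 * m ≤ n := by
      rw [hm, hn]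
      exact_mod_cast h
    have hbase : (1 : ℝ) ≤ n * max 1 ‖Matrix.of A‖ := by
      have h1 : (1 : ℝ) ≤ max 1 ‖Matrix.of A‖ := le_max_left _ _
      have h2 : (1 : ℝ) ≤ n := by linarith
      nlinarith
    have hexp : m / (n - m) ≤ 1 := by
      rw [div_le_one (by linarith)]
      linarith
    have h1 : ‖t‖ ≤ n * max 1 ‖Matrix.of A‖ := by
      refine htn.trans ?_
      calc (n * max 1 ‖Matrix.of A‖) ^ (m / (n - m)) ≤ (n * max 1 ‖Matrix.of A‖) ^ (1 : ℝ) :=
            Real.rpow_le_rpow_of_exponent_le hbase hexp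
        _ = n * max 1 ‖Matrix.of A‖ := Real.rpow_one _
    have hMR : (1 : ℝ) ≤ M := by exact_mod_cast hM
    have h2 : ‖Matrix.of A‖ ≤ M := by
      rw [Matrix.norm_le_iff (by linarith)]
      intro i j
      rw [Matrix.of_apply, Int.norm_eq_abs]
      exact_mod_cast hA i j
    have h3 : ‖t j‖ ≤ n * M := by
      refine (norm_le_pi_norm t j).trans (h1.trans ?_)
      have h4 : max 1 ‖Matrix.of A‖ ≤ M := max_le hMR h2
      have h5 : 0 ≤ n := by linarith
      exact mul_le_mul_of_nonneg_left h4 h5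
    rw [Int.norm_eq_abs] at h3
    have h4 : ((|t j| : ℤ) : ℝ) ≤ (((Fintype.card β : ℤ) * M : ℤ) : ℝ) := by
      push_cast
      exact h3
    exact_mod_cast h4

/-- The final step: power sums with distinct nodes. -/
theorem vander {β : Type*} [Fintype β] (R : β → ℕ) (hR : Function.Injective R) (c : β → ℤ)
    (B : ℕ) (hB : Fintype.card β ≤ B) (h : ∀ b < B, ∑ j, c j * (R j : ℤ) ^ b = 0) : c = 0 := by
  classical
  let e := Fintype.equivFin β
  have h1 : (fun i => c (e.symm i)) = 0 := by
    apply Matrix.eq_zero_of_forall_pow_sum_mul_pow_eq_zero (f := fun i => (R (e.symm i) : ℤ))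
    · intro i j hij
      have : (R (e.symm i) : ℤ) = R (e.symm j) := hij
      have h2 : R (e.symm i) = R (e.symm j) := by exact_mod_cast this
      exact e.symm.injective (hR h2)
    · intro i
      have h3 := h i (lt_of_lt_of_le i.2 hB)
      rw [← h3]
      exact (Equiv.sum_comp e.symm (fun j => c j * (R j : ℤ) ^ (i : ℕ)))
  funext j
  have h2 := congrFun h1 (e j)
  simpa using h2

end Pool.Agent.TwoAd
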