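import Mathlib

/-!
# Powers of `5` modulo powers of `2`
-/

open Finset

namespace Pool.Agent.TwoAd

theorem five_pow_two_pow (n : ℕ) : ∃ o : ℤ, ¬ (2 : ℤ) ∣ o ∧ (5 : ℤ) ^ 2 ^ n = 1 + 2 ^ (n + 2) * o := by
  induction n with
  | zero => exact ⟨1, by norm_num, by norm_num⟩
  | succ n ih =>
    obtain ⟨o, ho, h⟩ := ih
    refine ⟨o + 2 * (2 ^ n * o ^ 2), ?_, ?_⟩
    · intro h2
      apply ho
      have h3 : (2 : ℤ) ∣ 2 * (2 ^ n * o ^ 2) := dvd_mul_right _ _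
      have h4 := dvd_sub h2 h3
      simpa using h4
    · rw [pow_succ, pow_mul, h]
      ring

/-- Discrete logarithms to the base `5`. -/
theorem exists_log (u : ℤ) (hu : (4 : ℤ) ∣ u - 1) (m : ℕ) : ∃ c : ℕ, (2 : ℤ) ^ m ∣ u - 5 ^ c := by
  have key : ∀ m : ℕ, ∃ c : ℕ, (2 : ℤ) ^ (m + 2) ∣ u - 5 ^ c := by
    intro m
    induction m with
    | zero =>
      refine ⟨0, ?_⟩
      simpa using hu
    | succ m ih =>
      obtain ⟨c, w, hw⟩ := ih
      by_cases h2 : (2 : ℤ) ∣ w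
      · obtain ⟨w', rfl⟩ := h2
        exact ⟨c, w', by rw [hw]; ring⟩
      · obtain ⟨o, ho, h⟩ := five_pow_two_pow m
        refine ⟨c + 2 ^ m, ?_⟩
        have h5 : ¬ (2 : ℤ) ∣ 5 ^ c := by
          intro h3
          have := Int.prime_two.dvd_of_dvd_pow h3
          omega
        have h6 : (2 : ℤ) ∣ w - 5 ^ c * o := by
          have e1 : w % 2 = 1 := by omega
          have e2 : (5 ^ c : ℤ) % 2 = 1 := by omega
          have e3 : o % 2 = 1 := by omega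
          have e4 : (5 ^ c * o : ℤ) % 2 = 1 := by
            rw [Int.mul_emod, e2, e3]; norm_num
          omega
        obtain ⟨w', hw'⟩ := h6
        refine ⟨w', ?_⟩
        have e : u - 5 ^ (c + 2 ^ m) = 2 ^ (m + 2) * (w - 5 ^ c * o) := by
          rw [pow_add, h]
          linear_combination hw
        rw [e, hw']
        ring
  obtain ⟨c, hc⟩ := key m
  exact ⟨c, (pow_dvd_pow _ (by omega)).trans hc⟩

theorem dvd_of_five_pow (m : ℕ) : ∀ n : ℕ, (2 : ℤ) ^ (m + 2) ∣ 5 ^ n - 1 → 2 ^ m ∣ n := by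
  induction m with
  | zero => intro n _; simp
  | succ m ih =>
    intro n h
    obtain ⟨j, hj⟩ := ih n ((pow_dvd_pow _ (by omega)).trans h)
    obtain ⟨o, ho, h5⟩ := five_pow_two_pow m
    by_contra hcon
    have hj2 : ¬ 2 ∣ j := by
      rintro ⟨i, rfl⟩
      exact hcon ⟨i, by rw [hj]; ring⟩
    -- `5 ^ n - 1 = 2 ^ (m + 2) * (o * geometric sum)`
    have e1 : (5 : ℤ) ^ n - 1 = 2 ^ (m + 2) * (o * ∑ i ∈ range j, (1 + 2 ^ (m + 2) * o) ^ i) := by
      rw [hj, pow_mul, h5]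
      have h1 := geom_sum_mul (1 + 2 ^ (m + 2) * o) j
      rw [← h1]
      ring
    rw [e1, show m + 1 + 2 = (m + 2) + 1 from rfl, pow_succ] at h
    have h2 : (2 : ℤ) ∣ o * ∑ i ∈ range j, (1 + 2 ^ (m + 2) * o) ^ i :=
      Int.dvd_of_mul_dvd_mul_left (by positivity) h
    rcases Int.prime_two.dvd_or_dvd h2 with h3 | h3
    · exact ho h3
    · have h4 : ∀ i : ℕ, (2 : ℤ) ∣ (1 + 2 ^ (m + 2) * o) ^ i - 1 := by
        intro i
        have h6 : (1 + 2 ^ (m + 2) * o) - 1 ∣ (1 + 2 ^ (m + 2) * o) ^ i - 1 ^ i := sub_dvd_pow_sub_pow _ _ i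
        rw [one_pow] at h6
        refine dvd_trans ?_ h6
        have e : (1 + 2 ^ (m + 2) * o : ℤ) - 1 = 2 * (2 ^ (m + 1) * o) := by ring
        rw [e]
        exact dvd_mul_right _ _
      have h5' : (2 : ℤ) ∣ ∑ i ∈ range j, ((1 + 2 ^ (m + 2) * o) ^ i - 1) :=
        Finset.dvd_sum fun i _ => h4 i
      rw [Finset.sum_sub_distrib] at h5'
      have h7 := dvd_sub h3 h5'
      have e : (∑ i ∈ range j, (1 + 2 ^ (m + 2) * o) ^ i) -
          ((∑ i ∈ range j, (1 + 2 ^ (m + 2) * o) ^ i) - ∑ i ∈ range j, (1 : ℤ)) = (j : ℤ) := by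
        simp
      rw [e] at h7
      exact hj2 (by exact_mod_cast h7)

/-- `5 ^ a = 5 ^ b` modulo `2 ^ m` implies `a = b` modulo `2 ^ (m - 2)`. -/
theorem log_inj (m a b : ℕ) (h : (2 : ℤ) ^ m ∣ 5 ^ a - 5 ^ b) : (2 : ℤ) ^ (m - 2) ∣ (a : ℤ) - b := by
  have key : ∀ a b : ℕ, b ≤ a → (2 : ℤ) ^ m ∣ 5 ^ a - 5 ^ b → (2 : ℤ) ^ (m - 2) ∣ (a : ℤ) - b := by
    intro a b hab h
    rcases Nat.lt_or_ge m 2 with hm | hm
    · have : m - 2 = 0 := by omega
      rw [this]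
      simp
    · have e1 : (5 : ℤ) ^ a - 5 ^ b = 5 ^ b * (5 ^ (a - b) - 1) := by
        rw [mul_sub, ← pow_add, Nat.add_sub_cancel' hab, mul_one]
      rw [e1] at h
      have h2 : IsCoprime ((2 : ℤ) ^ m) (5 ^ b) := by
        refine IsCoprime.pow ?_
        norm_num
      have h3 := h2.dvd_of_dvd_mul_left h
      have h4 := dvd_of_five_pow (m - 2) (a - b) (by rwa [Nat.sub_add_cancel hm])
      have h5 : ((2 ^ (m - 2) : ℕ) : ℤ) ∣ ((a - b : ℕ) : ℤ) := by exact_mod_cast h4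
      rw [Nat.cast_sub hab] at h5
      simpa using h5
  rcases le_total b a with hab | hab
  · exact key a b hab h
  · have h1 : (2 : ℤ) ^ m ∣ 5 ^ b - 5 ^ a := by
      rw [← neg_sub]
      exact (dvd_neg).2 h
    have h2 := key b a hab h1
    rw [← neg_sub]
    exact (dvd_neg).2 h2

end Pool.Agent.TwoAd
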