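import Pool.Agent.Lib.TwoAd.Interp
import Pool.Agent.Lib.TwoAd.Log5
import Pool.Agent.Lib.TwoAd.Lin

/-!
# The extrapolation, abstract form

Points `t : I` with distinct numbers `R t = 5 ^ X t` modulo `2 ^ k`, coordinates `ζ j t` (`j : J`) and
`ν X t = ∑ c j ζ j t` modulo `2 ^ (k - 2)`, where `J` has one element less than the dimension of `I`.
-/

open Finset

namespace Pool.Agent.TwoAd

section

variable {I J : Type*} [Fintype I] [Fintype J] [DecidableEq J]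

/-- monomials in the coordinates -/
def mono (ζ : J → I → ℤ) (a : J → ℕ) (t : I) : ℤ := ∏ j, ζ j t ^ a j

/-- the functions -/
def Fn (R : I → ℕ) (ζ : J → I → ℤ) (C : I → ℤ) (a : J → ℕ) (b : ℕ) : ℤ :=
  ∑ t, C t * mono ζ a t * (R t : ℤ) ^ b

theorem mono_add_single (ζ : J → I → ℤ) (a : J → ℕ) (j : J) (t : I) :
    mono ζ (a + Pi.single j 1) t = ζ j t * mono ζ a t := by
  unfold mono
  rw [← Finset.mul_prod_erase _ _ (Finset.mem_univ j),
    ← Finset.mul_prod_erase Finset.univ (fun i => ζ i t ^ a i) (Finset.mem_univ j)]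
  have h1 : ∏ i ∈ Finset.univ.erase j, ζ i t ^ (a + Pi.single j 1 : J → ℕ) i =
      ∏ i ∈ Finset.univ.erase j, ζ i t ^ a i := by
    refine Finset.prod_congr rfl fun i hi => ?_
    rw [Pi.add_apply, Pi.single_eq_of_ne (Finset.ne_of_mem_erase hi), add_zero]
  rw [h1, Pi.add_apply, Pi.single_eq_same, pow_succ]
  ring

theorem sum_add_single (a : J → ℕ) (j : J) : ∑ i, (a + Pi.single j 1 : J → ℕ) i = ∑ i, a i + 1 := by
  simp only [Pi.add_apply, Finset.sum_add_distrib]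
  congr 1
  rw [Finset.sum_pi_single']
  simp

theorem abs_mono_le {ζ : J → I → ℤ} {Z D : ℕ} (hZ1 : 1 ≤ Z) (hZ : ∀ j t, |ζ j t| ≤ Z) {a : J → ℕ}
    (ha : ∀ j, a j ≤ D) (t : I) : |mono ζ a t| ≤ (Z : ℤ) ^ (Fintype.card J * D) := by
  unfold mono
  rw [Finset.abs_prod]
  calc ∏ j, |ζ j t ^ a j| ≤ ∏ _j : J, (Z : ℤ) ^ D := by
        refine Finset.prod_le_prod (fun j _ => abs_nonneg _) fun j _ => ?_
        rw [abs_pow]
        calc |ζ j t| ^ a j ≤ (Z : ℤ) ^ a j := pow_le_pow_left₀ (abs_nonneg _) (hZ j t) _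
          _ ≤ (Z : ℤ) ^ D := pow_le_pow_right₀ (by exact_mod_cast hZ1) (ha j)
    _ = (Z : ℤ) ^ (Fintype.card J * D) := by
        rw [Finset.prod_const, Finset.card_univ, ← pow_mul, mul_comm]

/-- vanishing of the products with powers of the linear form -/
theorem lin_pow_zero {R : I → ℕ} {ζ : J → I → ℤ} {C : I → ℤ} {c : J → ℤ} {D b : ℕ}
    (h : ∀ a : J → ℕ, ∑ j, a j ≤ D → Fn R ζ C a b = 0) :
    ∀ i : ℕ, ∀ a : J → ℕ, ∑ j, a j + i ≤ D →
      ∑ t, C t * mono ζ a t * (R t : ℤ) ^ b * (∑ j, c j * ζ j t) ^ i = 0 := by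
  intro i
  induction i with
  | zero =>
    intro a ha
    have h1 := h a (by omega)
    unfold Fn at h1
    simpa using h1
  | succ i ih =>
    intro a ha
    have h1 : ∑ t, C t * mono ζ a t * (R t : ℤ) ^ b * (∑ j, c j * ζ j t) ^ (i + 1) =
        ∑ j, c j * ∑ t, C t * mono ζ (a + Pi.single j 1) t * (R t : ℤ) ^ b *
          (∑ j, c j * ζ j t) ^ i := by
      simp_rw [Finset.mul_sum]
      rw [Finset.sum_comm]
      refine Finset.sum_congr rfl fun t _ => ?_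
      rw [pow_succ, ← mul_assoc, Finset.mul_sum]
      refine Finset.sum_congr rfl fun j _ => ?_
      rw [mono_add_single]
      ring
    rw [h1]
    refine Finset.sum_eq_zero fun j _ => ?_
    rw [ih (a + Pi.single j 1) (by rw [sum_add_single]; omega), mul_zero]

/-- one step of the extrapolation -/
theorem step_abs {R X : I → ℕ} {ζ : J → I → ℤ} {C : I → ℤ} {c : J → ℤ} {ν : ℤ} {k d g B b D : ℕ}
    {XX Z : ℕ} {K : ℤ} {a : J → ℕ}
    (hRX : ∀ t, (2 : ℤ) ^ k ∣ (R t : ℤ) - 5 ^ X t)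
    (hrel : ∀ t, (2 : ℤ) ^ (k - 2) ∣ ν * X t - ∑ j, c j * ζ j t) (hν : ν ≠ 0) (hg : |ν| < 2 ^ g)
    (hXX1 : 1 ≤ XX) (hXX : ∀ t, R t ≤ XX) (hZ1 : 1 ≤ Z) (hZ : ∀ j t, |ζ j t| ≤ Z)
    (hB : 1 ≤ B) (hK : ∀ t, |C t| ≤ K) (ha : ∀ j, a j ≤ D)
    (h0 : ∀ a' : J → ℕ, ∑ j, a' j ≤ ∑ j, a j + d → ∀ b' < B, Fn R ζ C a' b' = 0)
    (hb : b < 2 * B)
    (hsize : (Fintype.card I : ℤ) * (K * Z ^ (Fintype.card J * D) * XX ^ (2 * B)) <
      2 ^ (2 * (B * (d + 1))))
    (hk : 3 + d * g + 2 * (B * (d + 1)) +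
      (B * (d + 1)) ^ 2 * (2 + B * (d + 1) * (d + 1) + 3 * B) ≤ k) :
    Fn R ζ C a b = 0 := by
  classical
  set m1 := k - 2 - (d * g + 1) with hm1
  have hmod : ∀ (t : I) (b' : ℕ), (2 : ℤ) ^ k ∣ (R t : ℤ) ^ b' - 5 ^ (b' * X t) := by
    intro t b'
    have e4 := (hRX t).trans (sub_dvd_pow_sub_pow (R t : ℤ) (5 ^ X t) b')
    rw [← pow_mul, mul_comm (X t) b'] at e4
    exact e4
  -- the sums for the interpolation lemma
  have hsum : ∀ b' < B, ∀ i < d + 1, (2 : ℤ) ^ m1 ∣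
      ∑ t, (C t * mono ζ a t) * (X t : ℤ) ^ i * 5 ^ (b' * X t) := by
    intro b' hb' i hi
    have h1 : (2 : ℤ) ^ (k - 2) ∣ ν ^ i * ∑ t, (C t * mono ζ a t) * (X t : ℤ) ^ i * (R t : ℤ) ^ b' := by
      have h2 : ν ^ i * ∑ t, (C t * mono ζ a t) * (X t : ℤ) ^ i * (R t : ℤ) ^ b' =
          ∑ t, C t * mono ζ a t * (R t : ℤ) ^ b' * (∑ j, c j * ζ j t) ^ i +
          ∑ t, (C t * mono ζ a t) * (R t : ℤ) ^ b' *
            ((ν * X t) ^ i - (∑ j, c j * ζ j t) ^ i) := by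
        rw [Finset.mul_sum, ← Finset.sum_add_distrib]
        refine Finset.sum_congr rfl fun t _ => ?_
        rw [mul_pow]
        ring
      rw [h2, lin_pow_zero (D := ∑ j, a j + d) (fun a' ha' => h0 a' ha' b' hb') i a (by omega),
        zero_add]
      refine Finset.dvd_sum fun t _ => ?_
      exact ((hrel t).trans (sub_dvd_pow_sub_pow _ _ i)).mul_left _
    have h3 : (2 : ℤ) ^ m1 ∣ ∑ t, (C t * mono ζ a t) * (X t : ℤ) ^ i * (R t : ℤ) ^ b' := by
      refine dvd_of_dvd_mul_small (k - 2) (d * g + 1) m1 (ν ^ i) _ (pow_ne_zero _ hν) ?_ h1 ?_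
      · rw [abs_pow]
        have h4 : |ν| ^ i ≤ (2 : ℤ) ^ (d * g) := by
          calc |ν| ^ i ≤ ((2 : ℤ) ^ g) ^ i := pow_le_pow_left₀ (abs_nonneg _) hg.le i
            _ = 2 ^ (g * i) := by rw [← pow_mul]
            _ ≤ 2 ^ (d * g) := by
              refine pow_le_pow_right₀ (by norm_num) ?_
              rw [mul_comm d g]
              exact Nat.mul_le_mul_left _ (by omega)
        exact lt_of_le_of_lt h4 (pow_lt_pow_right₀ (by norm_num) (by omega))
      · omega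
    have h4 : (2 : ℤ) ^ m1 ∣
        ∑ t, (C t * mono ζ a t) * (X t : ℤ) ^ i * ((R t : ℤ) ^ b' - 5 ^ (b' * X t)) := by
      refine Finset.dvd_sum fun t _ => ?_
      exact ((pow_dvd_pow (2 : ℤ) (by omega)).trans (hmod t b')).mul_left _
    have h5 := dvd_sub h3 h4
    rw [← Finset.sum_sub_distrib] at h5
    have h6 : ∑ t, ((C t * mono ζ a t) * (X t : ℤ) ^ i * (R t : ℤ) ^ b' -
        (C t * mono ζ a t) * (X t : ℤ) ^ i * ((R t : ℤ) ^ b' - 5 ^ (b' * X t))) =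
        ∑ t, (C t * mono ζ a t) * (X t : ℤ) ^ i * 5 ^ (b' * X t) := by
      refine Finset.sum_congr rfl fun t _ => ?_
      ring
    rwa [h6] at h5
  have hL := interp Finset.univ B (d + 1) b m1 (2 * (B * (d + 1))) hB (by omega)
    (fun t => C t * mono ζ a t) X hsum le_rfl (by omega)
  have hF : (2 : ℤ) ^ (2 * (B * (d + 1))) ∣ Fn R ζ C a b := by
    have h1 : (2 : ℤ) ^ (2 * (B * (d + 1))) ∣ ∑ t, (C t * mono ζ a t) *
        ((R t : ℤ) ^ b - 5 ^ (b * X t)) := by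
      refine Finset.dvd_sum fun t _ => ?_
      exact ((pow_dvd_pow (2 : ℤ) (by omega)).trans (hmod t b)).mul_left _
    have h2 := dvd_add hL h1
    rw [← Finset.sum_add_distrib] at h2
    have h3 : ∑ t, (C t * mono ζ a t * 5 ^ (b * X t) +
        (C t * mono ζ a t) * ((R t : ℤ) ^ b - 5 ^ (b * X t))) = Fn R ζ C a b := by
      unfold Fn
      refine Finset.sum_congr rfl fun t _ => ?_
      ring
    rwa [h3] at h2
  refine Int.eq_zero_of_abs_lt_dvd hF (lt_of_le_of_lt ?_ hsize)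
  unfold Fn
  refine (Finset.abs_sum_le_sum_abs _ _).trans ?_
  have hterm : ∀ t ∈ (Finset.univ : Finset I),
      |C t * mono ζ a t * (R t : ℤ) ^ b| ≤ K * Z ^ (Fintype.card J * D) * XX ^ (2 * B) := by
    intro t _
    rw [abs_mul, abs_mul, abs_of_nonneg (by positivity : (0 : ℤ) ≤ (R t : ℤ) ^ b)]
    have h1 := abs_mono_le hZ1 hZ ha t
    have h2 : (R t : ℤ) ^ b ≤ (XX : ℤ) ^ (2 * B) := by
      have h3 := (Nat.pow_le_pow_left (hXX t) b).trans (Nat.pow_le_pow_right hXX1 hb.le)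
      exact_mod_cast h3
    have h3 : 0 ≤ K := (abs_nonneg _).trans (hK t)
    have h4 := hK t
    gcongr
  refine (Finset.sum_le_card_nsmul _ _ _ hterm).trans ?_
  rw [Finset.card_univ, nsmul_eq_mul]

/-- **The contradiction**, abstract finite form. -/
theorem core_abs (R X : I → ℕ) (ζ : J → I → ℤ) (c : J → ℤ) (ν : ℤ) (k s d B0 g XX Z : ℕ)
    (hR : Function.Injective R)
    (hRX : ∀ t, (2 : ℤ) ^ k ∣ (R t : ℤ) - 5 ^ X t)
    (hrel : ∀ t, (2 : ℤ) ^ (k - 2) ∣ ν * X t - ∑ j, c j * ζ j t) (hν : ν ≠ 0) (hg : |ν| < 2 ^ g)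
    (hXX1 : 1 ≤ XX) (hXX : ∀ t, R t ≤ XX) (hZ1 : 1 ≤ Z) (hZ : ∀ j t, |ζ j t| ≤ Z) (hB0 : 1 ≤ B0)
    (h1 : 2 * ((s * d + 1) ^ Fintype.card J * B0) ≤ Fintype.card I)
    (h2 : Fintype.card I ≤ 2 ^ s * B0) (C1 : XX ^ 3 ≤ 2 ^ (d + 1))
    (C2 : Fintype.card I ^ 2 * Z ^ (2 * (Fintype.card J * (s * d))) < 2 ^ (B0 * (d + 1)))
    (C3 : 3 + d * g + 2 * (2 ^ s * B0 * (d + 1)) + (2 ^ s * B0 * (d + 1)) ^ 2 *
      (2 + 2 ^ s * B0 * (d + 1) * (d + 1) + 3 * (2 ^ s * B0)) ≤ k) : False := by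
  classical
  -- Siegel
  have hcardα : Fintype.card ((J → Fin (s * d + 1)) × Fin B0) =
      (s * d + 1) ^ Fintype.card J * B0 := by
    rw [Fintype.card_prod, Fintype.card_fun, Fintype.card_fin, Fintype.card_fin]
  obtain ⟨C, hC0, hC, hCle⟩ := siegel
    (fun (p : (J → Fin (s * d + 1)) × Fin B0) (t : I) =>
      mono ζ (fun j => (p.1 j : ℕ)) t * (R t : ℤ) ^ (p.2 : ℕ))
    (by rw [hcardα]; exact h1)
    (by rw [hcardα]; exact Nat.mul_pos (Nat.pow_pos (by omega)) hB0)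
    (Z ^ (Fintype.card J * (s * d)) * XX ^ B0) (Nat.mul_pos (Nat.pow_pos hZ1) (Nat.pow_pos hXX1))
    (by
      intro p t
      rw [abs_mul, abs_of_nonneg (by positivity : (0 : ℤ) ≤ (R t : ℤ) ^ (p.2 : ℕ))]
      have e1 := abs_mono_le hZ1 hZ (a := fun j => (p.1 j : ℕ)) (D := s * d)
        (fun j => by have := (p.1 j).2; omega) t
      have e2 : (R t : ℤ) ^ (p.2 : ℕ) ≤ (XX : ℤ) ^ B0 := by
        have e3 : R t ^ (p.2 : ℕ) ≤ XX ^ B0 :=
          (Nat.pow_le_pow_left (hXX t) _).trans (Nat.pow_le_pow_right hXX1 p.2.2.le)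
        exact_mod_cast e3
      push_cast
      gcongr)
  set K : ℤ := (Fintype.card I : ℤ) * ((Z ^ (Fintype.card J * (s * d)) * XX ^ B0 : ℕ) : ℤ) with hK
  -- the induction
  have hind : ∀ j ≤ s, ∀ a : J → ℕ, ∑ i, a i + j * d ≤ s * d → ∀ b < 2 ^ j * B0,
      Fn R ζ C a b = 0 := by
    intro j
    induction j with
    | zero =>
      intro _ a ha b hb
      have hai : ∀ i, a i < s * d + 1 := by
        intro i
        have : a i ≤ ∑ i, a i := Finset.single_le_sum (fun i _ => Nat.zero_le _) (Finset.mem_univ i)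
        omega
      have h3 := hC (fun i => ⟨a i, hai i⟩, ⟨b, by simpa using hb⟩)
      unfold Fn
      rw [← h3]
      refine Finset.sum_congr rfl fun t _ => ?_
      ring
    | succ j ih =>
      intro hj a ha b hb
      have hB : 1 ≤ 2 ^ j * B0 := Nat.mul_pos (Nat.pow_pos (by norm_num)) hB0
      have hBs : 2 ^ j * B0 ≤ 2 ^ s * B0 :=
        Nat.mul_le_mul_right _ (Nat.pow_le_pow_right (by norm_num) (by omega))
      have hBB0 : B0 ≤ 2 ^ j * B0 := Nat.le_mul_of_pos_left _ (Nat.pow_pos (by norm_num))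
      have hjd : (j + 1) * d = j * d + d := by ring
      have hai : ∀ i, a i ≤ s * d := by
        intro i
        have : a i ≤ ∑ i, a i := Finset.single_le_sum (fun i _ => Nat.zero_le _) (Finset.mem_univ i)
        omega
      refine step_abs (B := 2 ^ j * B0) (d := d) (g := g) (D := s * d) hRX hrel hν hg hXX1 hXX hZ1
        hZ hB hCle hai ?_ ?_ ?_ ?_
      · intro a' ha' b' hb'
        exact ih (by omega) a' (by omega) b' hb'
      · have h9 : 2 ^ (j + 1) * B0 = 2 * (2 ^ j * B0) := by ring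
        omega
      · -- size
        set B := 2 ^ j * B0 with hBdef
        set P := Fintype.card J * (s * d) with hP
        set n := Fintype.card I with hn
        have e1 : n * (n * (Z ^ P * XX ^ B0) * Z ^ P * XX ^ (2 * B)) ≤
            n ^ 2 * Z ^ (2 * P) * (XX ^ 3) ^ B := by
          have e3 : XX ^ B0 ≤ XX ^ B := Nat.pow_le_pow_right hXX1 hBB0
          calc n * (n * (Z ^ P * XX ^ B0) * Z ^ P * XX ^ (2 * B))
              ≤ n * (n * (Z ^ P * XX ^ B) * Z ^ P * XX ^ (2 * B)) := by gcongr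
            _ = n ^ 2 * Z ^ (2 * P) * (XX ^ 3) ^ B := by
                rw [← pow_mul XX 3 B]
                ring
        have e4 : (XX ^ 3) ^ B ≤ (2 ^ (d + 1)) ^ B := Nat.pow_le_pow_left C1 B
        have e5 : 2 ^ (B0 * (d + 1)) ≤ 2 ^ (B * (d + 1)) :=
          Nat.pow_le_pow_right (by norm_num) (Nat.mul_le_mul_right _ hBB0)
        have e6 : n * (n * (Z ^ P * XX ^ B0) * Z ^ P * XX ^ (2 * B)) < 2 ^ (2 * (B * (d + 1))) := by
          calc n * (n * (Z ^ P * XX ^ B0) * Z ^ P * XX ^ (2 * B))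
              ≤ n ^ 2 * Z ^ (2 * P) * (XX ^ 3) ^ B := e1
            _ ≤ n ^ 2 * Z ^ (2 * P) * (2 ^ (d + 1)) ^ B := Nat.mul_le_mul_left _ e4
            _ < 2 ^ (B0 * (d + 1)) * (2 ^ (d + 1)) ^ B :=
                Nat.mul_lt_mul_of_pos_right C2 (Nat.pow_pos (Nat.pow_pos (by norm_num)))
            _ ≤ 2 ^ (B * (d + 1)) * (2 ^ (d + 1)) ^ B := Nat.mul_le_mul_right _ e5
            _ = 2 ^ (2 * (B * (d + 1))) := by
                rw [← pow_mul, ← pow_add]
                congr 1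
                ring
        rw [hK]
        exact_mod_cast e6
      · refine le_trans ?_ C3
        gcongr
  -- the end
  have hfin := vander R hR C (2 ^ s * B0) h2 (by
    intro b hb
    have h3 := hind s le_rfl (fun _ => 0) (by simp) b hb
    unfold Fn mono at h3
    rw [← h3]
    refine Finset.sum_congr rfl fun t _ => ?_
    simp)
  exact hC0 hfin

end

end Pool.Agent.TwoAd
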