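import Mathlib

/-!
# The confluent Vandermonde matrix with the nodes `5 ^ b`
-/

open Finset Polynomial

namespace Pool.Agent.TwoAd

/-- The confluent Vandermonde matrix: the row `(b, i)` is the derivative of order `i` at `5 ^ b`,
the column `c` is the monomial of degree `j = finProdFinEquiv c < B * e`. -/
def cmat (B e : ℕ) : Matrix (Fin B × Fin e) (Fin B × Fin e) ℤ := fun r c =>
  (((finProdFinEquiv c : Fin (B * e)) : ℕ).descFactorial (r.2 : ℕ) : ℤ) *
    ((5 : ℤ) ^ (r.1 : ℕ)) ^ (((finProdFinEquiv c : Fin (B * e)) : ℕ) - (r.2 : ℕ))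

/-- The polynomial with coefficient vector `v`. -/
noncomputable def cpoly (B e : ℕ) (v : Fin B × Fin e → ℤ) : ℤ[X] :=
  ∑ c, C (v c) * X ^ ((finProdFinEquiv c : Fin (B * e)) : ℕ)

theorem eval_iterate_cpoly (B e : ℕ) (v : Fin B × Fin e → ℤ) (b : Fin B) (i : Fin e) :
    (derivative^[(i : ℕ)] (cpoly B e v)).eval ((5 : ℤ) ^ (b : ℕ)) = (cmat B e).mulVec v (b, i) := by
  unfold cpoly
  rw [Polynomial.iterate_derivative_sum, Polynomial.eval_finsetSum]
  simp only [Matrix.mulVec, dotProduct]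
  refine Finset.sum_congr rfl fun c _ => ?_
  rw [Polynomial.iterate_derivative_C_mul, Polynomial.iterate_derivative_X_pow_eq_C_mul]
  unfold cmat
  simp only [eval_mul, eval_C, eval_pow, eval_X]
  ring

theorem coeff_cpoly (B e : ℕ) (v : Fin B × Fin e → ℤ) (c : Fin B × Fin e) :
    (cpoly B e v).coeff ((finProdFinEquiv c : Fin (B * e)) : ℕ) = v c := by
  classical
  unfold cpoly
  rw [Polynomial.finsetSum_coeff]
  rw [Finset.sum_eq_single c]
  · simp
  · intro c' _ hc'
    rw [Polynomial.coeff_C_mul, Polynomial.coeff_X_pow, if_neg, mul_zero]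
    intro h
    exact hc' (finProdFinEquiv.injective (Fin.ext h.symm))
  · intro h
    exact absurd (Finset.mem_univ c) h

theorem degree_cpoly (B e : ℕ) (v : Fin B × Fin e → ℤ) : (cpoly B e v).degree < (B * e : ℕ) := by
  unfold cpoly
  refine lt_of_le_of_lt (Polynomial.degree_sum_le _ _) ?_
  rw [Finset.sup_lt_iff (WithBot.bot_lt_coe _)]
  intro c _
  refine lt_of_le_of_lt (Polynomial.degree_C_mul_X_pow_le _ _) ?_
  exact_mod_cast (finProdFinEquiv c).2

theorem det_cmat_ne (B e : ℕ) : (cmat B e).det ≠ 0 := by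
  classical
  intro hdet
  obtain ⟨v, hv, hv0⟩ := Matrix.exists_mulVec_eq_zero_iff.2 hdet
  set p := cpoly B e v with hp
  have hp0 : p ≠ 0 := by
    intro h
    apply hv
    funext c
    rw [← coeff_cpoly B e v c, ← hp, h]
    simp
  have hBe : 0 < B * e := by
    obtain ⟨c, _⟩ := Function.ne_iff.1 hv
    exact Fin.pos (finProdFinEquiv c)
  have he : 0 < e := Nat.pos_of_mul_pos_left hBe
  have hmult : ∀ b : Fin B, e ≤ p.rootMultiplicity ((5 : ℤ) ^ (b : ℕ)) := by
    intro b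
    have h1 : e - 1 < p.rootMultiplicity ((5 : ℤ) ^ (b : ℕ)) := by
      rw [Polynomial.lt_rootMultiplicity_iff_isRoot_iterate_derivative hp0]
      intro m hm
      have h2 := eval_iterate_cpoly B e v b ⟨m, by omega⟩
      rw [hv0] at h2
      exact h2
    omega
  have hinj : Function.Injective (fun b : Fin B => (5 : ℤ) ^ (b : ℕ)) := by
    intro b b' h
    have h1 : (5 : ℤ) ^ (b : ℕ) = 5 ^ (b' : ℕ) := h
    have h2 := pow_right_injective₀ (by norm_num : (0 : ℤ) < 5) (by norm_num) h1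
    exact Fin.ext h2
  have h1 : B * e ≤ ∑ b : Fin B, p.roots.count ((5 : ℤ) ^ (b : ℕ)) := by
    have h2 : ∑ _b : Fin B, e ≤ ∑ b : Fin B, p.roots.count ((5 : ℤ) ^ (b : ℕ)) := by
      refine Finset.sum_le_sum fun b _ => ?_
      rw [Polynomial.count_roots]
      exact hmult b
    simpa using h2
  have h2 : ∑ b : Fin B, p.roots.count ((5 : ℤ) ^ (b : ℕ)) ≤ Multiset.card p.roots := by
    have h3 : ∑ b : Fin B, p.roots.count ((5 : ℤ) ^ (b : ℕ))
        = ∑ x ∈ Finset.univ.image (fun b : Fin B => (5 : ℤ) ^ (b : ℕ)), p.roots.count x := by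
      rw [Finset.sum_image]
      intro a _ b _ h
      exact hinj h
    rw [h3, ← Multiset.toFinset_sum_count_eq p.roots]
    rw [← Finset.sum_filter_add_sum_filter_not
      (Finset.univ.image (fun b : Fin B => (5 : ℤ) ^ (b : ℕ))) (fun x => x ∈ p.roots.toFinset)]
    have h4 : ∑ x ∈ (Finset.univ.image (fun b : Fin B => (5 : ℤ) ^ (b : ℕ))).filter
        (fun x => ¬ x ∈ p.roots.toFinset), p.roots.count x = 0 := by
      refine Finset.sum_eq_zero fun x hx => ?_
      rw [Finset.mem_filter] at hx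
      rw [Multiset.count_eq_zero]
      intro h
      exact hx.2 (Multiset.mem_toFinset.2 h)
    rw [h4, add_zero]
    refine Finset.sum_le_sum_of_subset ?_
    intro x hx
    exact (Finset.mem_filter.1 hx).2
  have h3 : Multiset.card p.roots < B * e := by
    have h4 := Polynomial.card_roots hp0
    have h5 := degree_cpoly B e v
    have h6 : ((Multiset.card p.roots : ℕ) : WithBot ℕ) < ((B * e : ℕ) : WithBot ℕ) :=
      lt_of_le_of_lt h4 h5
    exact_mod_cast h6
  omega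

theorem two_pow_lt_aux (n : ℕ) : n.factorial ≤ 2 ^ (n * n) := by
  calc n.factorial ≤ n ^ n := Nat.factorial_le_pow n
    _ ≤ (2 ^ n) ^ n := Nat.pow_le_pow_left Nat.lt_two_pow_self.le n
    _ = 2 ^ (n * n) := by rw [← pow_mul]

theorem det_cmat_lt (B e : ℕ) (hB : 1 ≤ B) (he : 1 ≤ e) :
    |(cmat B e).det| < 2 ^ ((B * e) ^ 2 * (2 + B * e * e + 3 * B)) := by
  classical
  set n := B * e with hn
  have hn1 : 1 ≤ n := Nat.mul_pos hB he
  have hentry : ∀ r c, |cmat B e r c| ≤ (2 : ℤ) ^ (n * e + 3 * B * n) := by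
    intro r c
    have hc : ((finProdFinEquiv c : Fin (B * e)) : ℕ) ≤ n := (finProdFinEquiv c).2.le
    have hr1 : (r.1 : ℕ) ≤ B := r.1.2.le
    have hr2 : (r.2 : ℕ) ≤ e := r.2.2.le
    unfold cmat
    rw [abs_of_nonneg (by positivity)]
    have h1 : (((finProdFinEquiv c : Fin (B * e)) : ℕ).descFactorial (r.2 : ℕ)) ≤ 2 ^ (n * e) := by
      calc (((finProdFinEquiv c : Fin (B * e)) : ℕ).descFactorial (r.2 : ℕ))
          ≤ ((finProdFinEquiv c : Fin (B * e)) : ℕ) ^ (r.2 : ℕ) := Nat.descFactorial_le_pow _ _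
        _ ≤ n ^ (r.2 : ℕ) := Nat.pow_le_pow_left hc _
        _ ≤ n ^ e := Nat.pow_le_pow_right hn1 hr2
        _ ≤ (2 ^ n) ^ e := Nat.pow_le_pow_left Nat.lt_two_pow_self.le e
        _ = 2 ^ (n * e) := by rw [← pow_mul]
    have h2 : (5 ^ (r.1 : ℕ)) ^ (((finProdFinEquiv c : Fin (B * e)) : ℕ) - (r.2 : ℕ))
        ≤ 2 ^ (3 * B * n) := by
      calc (5 ^ (r.1 : ℕ)) ^ (((finProdFinEquiv c : Fin (B * e)) : ℕ) - (r.2 : ℕ))
          ≤ (8 ^ (r.1 : ℕ)) ^ (((finProdFinEquiv c : Fin (B * e)) : ℕ) - (r.2 : ℕ)) :=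
            Nat.pow_le_pow_left (Nat.pow_le_pow_left (by norm_num) _) _
        _ ≤ (8 ^ B) ^ n :=
            (Nat.pow_le_pow_left (Nat.pow_le_pow_right (by norm_num) hr1) _).trans
              (Nat.pow_le_pow_right (Nat.pow_pos (by norm_num)) ((Nat.sub_le _ _).trans hc))
        _ = 2 ^ (3 * B * n) := by
            rw [show (8 : ℕ) = 2 ^ 3 by norm_num, ← pow_mul, ← pow_mul, mul_assoc]
    have h3 : ((((finProdFinEquiv c : Fin (B * e)) : ℕ).descFactorial (r.2 : ℕ) : ℕ) : ℤ)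
        ≤ 2 ^ (n * e) := by exact_mod_cast h1
    have h4 : ((5 : ℤ) ^ (r.1 : ℕ)) ^ (((finProdFinEquiv c : Fin (B * e)) : ℕ) - (r.2 : ℕ))
        ≤ 2 ^ (3 * B * n) := by exact_mod_cast h2
    calc _ ≤ (2 : ℤ) ^ (n * e) * 2 ^ (3 * B * n) := mul_le_mul h3 h4 (by positivity) (by positivity)
      _ = 2 ^ (n * e + 3 * B * n) := by rw [← pow_add]
  have h := Matrix.det_le (abv := AbsoluteValue.abs) (A := cmat B e)
    (x := (2 : ℤ) ^ (n * e + 3 * B * n)) (fun i j => hentry i j)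
  have hcard : Fintype.card (Fin B × Fin e) = n := by simp [hn]
  rw [hcard] at h
  have h5 : (n.factorial : ℤ) ≤ 2 ^ (n * n) := by exact_mod_cast two_pow_lt_aux n
  calc |(cmat B e).det| ≤ n.factorial • ((2 : ℤ) ^ (n * e + 3 * B * n)) ^ n := h
    _ = (n.factorial : ℤ) * ((2 : ℤ) ^ (n * e + 3 * B * n)) ^ n := by simp
    _ ≤ 2 ^ (n * n) * ((2 : ℤ) ^ (n * e + 3 * B * n)) ^ n := by gcongr
    _ = 2 ^ (n * n + (n * e + 3 * B * n) * n) := by rw [← pow_mul, ← pow_add]
    _ < 2 ^ (n ^ 2 * (2 + n * e + 3 * B)) := by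
        refine pow_lt_pow_right₀ (by norm_num) ?_
        have : n ^ 2 * (2 + n * e + 3 * B) = n * n + (n * e + 3 * B * n) * n +
          (n ^ 2 + (n ^ 3 * e - n ^ 2 * e)) := by
          have h7 : n ^ 2 * e ≤ n ^ 3 * e := by
            refine Nat.mul_le_mul_right _ ?_
            exact Nat.pow_le_pow_right hn1 (by norm_num)
          zify [h7]
          ring
        rw [this]
        have : 0 < n ^ 2 := by positivity
        omega

end Pool.Agent.TwoAd
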