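import Pool.Agent.Lib.TwoAd.Det

/-!
# The interpolation lemma modulo powers of two, base `5`
-/

open Finset Polynomial

namespace Pool.Agent.TwoAd

/-- If `2 ^ m ∣ d * x`, `d ≠ 0` and `|d| < 2 ^ v`, then `2 ^ (m - v) ∣ x`. -/
theorem dvd_of_dvd_mul_small (m v L : ℕ) (d x : ℤ) (hd : d ≠ 0) (hdv : |d| < 2 ^ v)
    (h : (2 : ℤ) ^ m ∣ d * x) (hL : L + v ≤ m) : (2 : ℤ) ^ L ∣ x := by
  obtain ⟨k, d', hd', hk⟩ : ∃ k : ℕ, ∃ d' : ℤ, ¬ (2 : ℤ) ∣ d' ∧ d = 2 ^ k * d' := by
    have hfin : FiniteMultiplicity (2 : ℤ) d := by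
      rw [Int.finiteMultiplicity_iff]
      exact ⟨by norm_num, hd⟩
    obtain ⟨c, hc1, hc2⟩ := hfin.exists_eq_pow_mul_and_not_dvd
    exact ⟨_, c, hc2, hc1⟩
  have hkv : k < v := by
    by_contra hcon
    push Not at hcon
    have h1 : (2 : ℤ) ^ v ≤ |d| := by
      rw [hk, abs_mul, abs_of_nonneg (by positivity : (0 : ℤ) ≤ 2 ^ k)]
      have h2 : (1 : ℤ) ≤ |d'| := by
        have : d' ≠ 0 := by
          rintro rfl
          exact hd' (dvd_zero _)
        exact Int.one_le_abs this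
      have h3 : (2 : ℤ) ^ v ≤ 2 ^ k := pow_le_pow_right₀ (by norm_num) hcon
      nlinarith [pow_pos (by norm_num : (0 : ℤ) < 2) k]
    omega
  have h1 : (2 : ℤ) ^ (k + L) ∣ 2 ^ k * (d' * x) := by
    rw [← mul_assoc, ← hk]
    exact (pow_dvd_pow _ (by omega)).trans h
  rw [pow_add] at h1
  have h2 : (2 : ℤ) ^ L ∣ d' * x :=
    Int.dvd_of_mul_dvd_mul_left (by positivity) h1
  have h3 : IsCoprime ((2 : ℤ) ^ L) d' := by
    refine IsCoprime.pow_left ?_
    exact (Int.isCoprime_iff_gcd_eq_one).2 (by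
      rcases (Nat.coprime_or_dvd_of_prime Nat.prime_two d'.natAbs) with h | h
      · simpa [Int.gcd] using h
      · exfalso
        exact hd' (by
          have := Int.natCast_dvd.2 h
          simpa using this))
  exact h3.dvd_of_dvd_mul_left h2

/-- `4 ∣ 5 ^ b - 5 ^ b'`. -/
theorem four_dvd_five_pow_sub (b b' : ℕ) : (2 : ℤ) ^ 2 ∣ 5 ^ b - 5 ^ b' := by
  have h : ∀ n : ℕ, (4 : ℤ) ∣ 5 ^ n - 1 := by
    intro n
    have := sub_one_dvd_pow_sub_one_aux n
    exact this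
  have h1 := dvd_sub (h b) (h b')
  have h2 : (5 : ℤ) ^ b - 1 - (5 ^ b' - 1) = 5 ^ b - 5 ^ b' := by ring
  rw [h2] at h1
  simpa using h1
where
  sub_one_dvd_pow_sub_one_aux (n : ℕ) : (4 : ℤ) ∣ 5 ^ n - 1 := by
    induction n with
    | zero => simp
    | succ n ih =>
      have : (5 : ℤ) ^ (n + 1) - 1 = 5 * (5 ^ n - 1) + 4 := by ring
      rw [this]
      exact dvd_add (Dvd.dvd.mul_left ih _) (dvd_refl _)

/-- The interpolation lemma: if the sums `∑ γ x ^ i * 5 ^ (b' * x)` are divisible by `2 ^ m` for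
all `i < e` and all `b' < B`, then `∑ γ * 5 ^ (b * x)` is divisible by `2 ^ L` for every `b`. -/
theorem interp {ι : Type*} (s : Finset ι) (B e b m L : ℕ) (hB : 1 ≤ B) (he : 1 ≤ e) (γ : ι → ℤ)
    (x : ι → ℕ)
    (h : ∀ b' < B, ∀ i < e, (2 : ℤ) ^ m ∣ ∑ t ∈ s, γ t * (x t : ℤ) ^ i * 5 ^ (b' * x t))
    (hL : L ≤ 2 * (B * e)) (hm : L + (B * e) ^ 2 * (2 + B * e * e + 3 * B) ≤ m) :
    (2 : ℤ) ^ L ∣ ∑ t ∈ s, γ t * 5 ^ (b * x t) := by
  classical
  set A : ℤ[X] := ∑ t ∈ s, C (γ t) * X ^ x t with hA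
  set Ψ : ℤ[X] := ∏ b' ∈ range B, (X - C ((5 : ℤ) ^ b')) ^ e with hΨ
  have hmon : Ψ.Monic := by
    refine monic_prod_of_monic _ _ fun b' _ => ?_
    exact (monic_X_sub_C _).pow e
  have hdegΨ : Ψ.natDegree = B * e := by
    rw [hΨ, natDegree_prod_of_monic _ _ (fun b' _ => (monic_X_sub_C _).pow e)]
    have h1 : ∀ b' ∈ range B, ((X - C ((5 : ℤ) ^ b')) ^ e).natDegree = e := by
      intro b' _
      rw [natDegree_pow, natDegree_X_sub_C, mul_one]
    rw [Finset.sum_congr rfl h1]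
    simp
  set r : ℤ[X] := A %ₘ Ψ with hr
  set Cq : ℤ[X] := A /ₘ Ψ with hCq
  have hAr : A = r + Ψ * Cq := (modByMonic_add_div A Ψ).symm
  have hdegr : r.degree < (B * e : ℕ) := by
    have h1 := degree_modByMonic_lt A hmon
    rw [degree_eq_natDegree hmon.ne_zero, hdegΨ] at h1
    exact h1
  -- derivatives of `A`
  have hAder : ∀ b' < B, ∀ i < e, (2 : ℤ) ^ m ∣ (derivative^[i] A).eval ((5 : ℤ) ^ b') := by
    intro b' hb' i hi
    have h1 : (derivative^[i] A).eval ((5 : ℤ) ^ b') * ((5 : ℤ) ^ b') ^ i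
        = ∑ t ∈ s, γ t * ((x t).descFactorial i : ℤ) * 5 ^ (b' * x t) := by
      rw [hA, Polynomial.iterate_derivative_sum, Polynomial.eval_finsetSum, Finset.sum_mul]
      refine Finset.sum_congr rfl fun t _ => ?_
      rw [Polynomial.iterate_derivative_C_mul, Polynomial.iterate_derivative_X_pow_eq_C_mul]
      simp only [eval_mul, eval_C, eval_pow, eval_X]
      rcases Nat.lt_or_ge (x t) i with hxi | hxi
      · rw [Nat.descFactorial_eq_zero_iff_lt.2 hxi]
        simp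
      · have h2 : (5 : ℤ) ^ (b' * x t) = ((5 : ℤ) ^ b') ^ (x t - i) * ((5 : ℤ) ^ b') ^ i := by
          rw [← pow_add, Nat.sub_add_cancel hxi, ← pow_mul]
        rw [h2]
        ring
    have h2 : (2 : ℤ) ^ m ∣ ∑ t ∈ s, γ t * ((x t).descFactorial i : ℤ) * 5 ^ (b' * x t) := by
      have h3 : ∀ t, ((x t).descFactorial i : ℤ)
          = ∑ l ∈ range (i + 1), (descPochhammer ℤ i).coeff l * (x t : ℤ) ^ l := by
        intro t
        have h4 := descPochhammer_eval_eq_descFactorial ℤ (x t) i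
        rw [← h4, Polynomial.eval_eq_sum_range, descPochhammer_natDegree]
      have h5 : ∑ t ∈ s, γ t * ((x t).descFactorial i : ℤ) * 5 ^ (b' * x t)
          = ∑ l ∈ range (i + 1), (descPochhammer ℤ i).coeff l *
              ∑ t ∈ s, γ t * (x t : ℤ) ^ l * 5 ^ (b' * x t) := by
        simp_rw [h3, Finset.mul_sum, Finset.sum_mul]
        rw [Finset.sum_comm]
        refine Finset.sum_congr rfl fun l _ => Finset.sum_congr rfl fun t _ => ?_
        ring
      rw [h5]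
      refine Finset.dvd_sum fun l hl => ?_
      exact Dvd.dvd.mul_left (h b' hb' l (by have := Finset.mem_range.1 hl; omega)) _
    rw [← h1] at h2
    have h3 : IsCoprime ((2 : ℤ) ^ m) (((5 : ℤ) ^ b') ^ i) := by
      refine IsCoprime.pow (IsCoprime.pow_right ?_)
      norm_num
    exact h3.dvd_of_dvd_mul_right h2
  -- derivatives of `Ψ * Cq`
  have hΨder : ∀ b' < B, ∀ i < e, (derivative^[i] (Ψ * Cq)).eval ((5 : ℤ) ^ b') = 0 := by
    intro b' hb' i hi
    have h1 : (X - C ((5 : ℤ) ^ b')) ^ e ∣ Ψ * Cq := by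
      refine Dvd.dvd.mul_right ?_ _
      exact Finset.dvd_prod_of_mem (fun b' => (X - C ((5 : ℤ) ^ b')) ^ e) (Finset.mem_range.2 hb')
    have h2 := Polynomial.pow_sub_dvd_iterate_derivative_of_pow_dvd i h1
    have h3 : (X - C ((5 : ℤ) ^ b')) ∣ derivative^[i] (Ψ * Cq) :=
      (dvd_pow_self _ (by omega)).trans h2
    exact Polynomial.dvd_iff_isRoot.1 h3
  have hrder : ∀ b' < B, ∀ i < e, (2 : ℤ) ^ m ∣ (derivative^[i] r).eval ((5 : ℤ) ^ b') := by
    intro b' hb' i hi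
    have h1 := hAder b' hb' i hi
    rw [hAr, iterate_map_add, Polynomial.eval_add, hΨder b' hb' i hi,
      add_zero] at h1
    exact h1
  -- the coefficient vector of `r`
  set v : Fin B × Fin e → ℤ := fun c => r.coeff ((finProdFinEquiv c : Fin (B * e)) : ℕ) with hv
  have hrv : r = cpoly B e v := by
    ext j
    rcases Nat.lt_or_ge j (B * e) with hj | hj
    · have h1 := coeff_cpoly B e v (finProdFinEquiv.symm ⟨j, hj⟩)
      rw [Equiv.apply_symm_apply] at h1
      simp only at h1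
      rw [h1, hv]
      simp only [Equiv.apply_symm_apply]
    · rw [Polynomial.coeff_eq_zero_of_degree_lt (lt_of_lt_of_le hdegr (by exact_mod_cast hj)),
        Polynomial.coeff_eq_zero_of_degree_lt
          (lt_of_lt_of_le (degree_cpoly B e v) (by exact_mod_cast hj))]
  have hmul : ∀ p : Fin B × Fin e, (2 : ℤ) ^ m ∣ (cmat B e).mulVec v p := by
    intro p
    have h1 := eval_iterate_cpoly B e v p.1 p.2
    rw [← hrv] at h1
    have h2 := hrder p.1 p.1.2 p.2 p.2.2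
    rw [h1] at h2
    exact h2
  have hdetv : ∀ c, (2 : ℤ) ^ m ∣ (cmat B e).det * v c := by
    intro c
    have h1 : ((cmat B e).adjugate).mulVec ((cmat B e).mulVec v) = (cmat B e).det • v := by
      rw [Matrix.mulVec_mulVec, Matrix.adjugate_mul, Matrix.smul_mulVec, Matrix.one_mulVec]
    have h2 := congrFun h1 c
    rw [Pi.smul_apply, smul_eq_mul] at h2
    rw [← h2]
    simp only [Matrix.mulVec, dotProduct]
    refine Finset.dvd_sum fun p _ => ?_
    exact Dvd.dvd.mul_left (hmul p) _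
  have hvdvd : ∀ c, (2 : ℤ) ^ L ∣ v c := fun c =>
    dvd_of_dvd_mul_small m ((B * e) ^ 2 * (2 + B * e * e + 3 * B)) L _ _ (det_cmat_ne B e)
      (det_cmat_lt B e hB he) (hdetv c) hm
  have hreval : (2 : ℤ) ^ L ∣ r.eval ((5 : ℤ) ^ b) := by
    rw [hrv]
    unfold cpoly
    rw [Polynomial.eval_finsetSum]
    refine Finset.dvd_sum fun c _ => ?_
    simp only [eval_mul, eval_C, eval_pow, eval_X]
    exact Dvd.dvd.mul_right (hvdvd c) _
  have hΨeval : (2 : ℤ) ^ L ∣ Ψ.eval ((5 : ℤ) ^ b) := by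
    rw [hΨ, Polynomial.eval_prod]
    have h1 : ∀ b' ∈ range B, ((2 : ℤ) ^ 2) ^ e ∣ ((X - C ((5 : ℤ) ^ b')) ^ e).eval ((5 : ℤ) ^ b) := by
      intro b' _
      simp only [eval_pow, eval_sub, eval_X, eval_C]
      exact pow_dvd_pow_of_dvd (four_dvd_five_pow_sub b b') e
    have h2 := Finset.prod_dvd_prod_of_dvd _ _ h1
    refine dvd_trans ?_ h2
    rw [Finset.prod_const, Finset.card_range, ← pow_mul, ← pow_mul]
    refine pow_dvd_pow _ ?_
    refine hL.trans (le_of_eq ?_)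
    ring
  have hAeval : A.eval ((5 : ℤ) ^ b) = ∑ t ∈ s, γ t * 5 ^ (b * x t) := by
    rw [hA, Polynomial.eval_finsetSum]
    refine Finset.sum_congr rfl fun t _ => ?_
    simp only [eval_mul, eval_C, eval_pow, eval_X]
    rw [← pow_mul]
  rw [← hAeval, hAr, Polynomial.eval_add, Polynomial.eval_mul]
  exact dvd_add hreval (Dvd.dvd.mul_right hΨeval _)

end Pool.Agent.TwoAd
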